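import Mathlib
import Pool.Agent.H.MP_decccb_lc.C

namespace Pool.Agent.Results.MP_decccb_lc.Holds
open Pool.Agent.H.DGame

theorem result (T : Set (List Bool)) (hT : IsSubtree T) (hd : 1 / 2 < dimH (canopy T))
    (δ : ENNReal) (h1 : 1 / 2 ≤ δ) (h2 : δ ≤ dimH (canopy T)) :
    ∃ W WI WII : Set Seq, W ⊆ canopy T ∧ WI ⊆ canopy T ∧ WII ⊆ canopy T ∧
      dimH W = δ ∧ dimH WI = δ ∧ dimH WII = δ ∧
      (¬ WinsI T W ∧ ¬ WinsII T W) ∧ WinsI T WI ∧ WinsII T WII :=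
  main T hT hd δ h1 h2

end Pool.Agent.Results.MP_decccb_lc.Holds
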